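import Pool.Agent.helper58.CRO.SpecB

/-!
Tools for the rows ELL, VOL, VVP, BAD of cro:*.
-/

open scoped Manifold ContDiff Topology ENNReal
open MeasureTheory Set

noncomputable section

namespace Pool.Agent.CRO

/-- square root of a positive definite operator -/
theorem H79L_sqrt {n : ℕ} (A : En n →L[ℝ] En n) (hA : PosDefOp A) :
    ∃ S : En n →ₗ[ℝ] En n, (∀ p, inner ℝ (A p) p = ‖S p‖ ^ 2) ∧ A.det = LinearMap.det S ^ 2 ∧
      LinearMap.det S ≠ 0 := by
  have hT : (A : En n →ₗ[ℝ] En n).IsSymmetric := fun v w => hA.1 v w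
  have hn : Module.finrank ℝ (En n) = n := finrank_euclideanSpace_fin
  obtain ⟨b, hb⟩ : ∃ b : OrthonormalBasis (Fin n) ℝ (En n), b = hT.eigenvectorBasis hn := ⟨_, rfl⟩
  obtain ⟨lam, hlam⟩ : ∃ lam : Fin n → ℝ, lam = hT.eigenvalues hn := ⟨_, rfl⟩
  have hAb : ∀ i, A (b i) = lam i • b i := by
    intro i
    have := hT.apply_eigenvectorBasis hn i
    rw [hb, hlam]
    exact this
  have hpos : ∀ i, 0 < lam i := by
    intro i
    have h1 := hA.2 (b i) (b.orthonormal.ne_zero i)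
    rw [hAb, real_inner_smul_left, real_inner_self_eq_norm_sq, b.orthonormal.norm_eq_one i] at h1
    linarith
  have hAr : ∀ p i, b.repr (A p) i = lam i * b.repr p i := by
    intro p i
    have := hT.eigenvectorBasis_apply_self_apply hn p i
    rw [hb, hlam]
    exact this
  obtain ⟨S, hS⟩ : ∃ S : En n →ₗ[ℝ] En n, ∀ p i, b.repr (S p) i = Real.sqrt (lam i) * b.repr p i := by
    refine ⟨{ toFun := fun p => b.repr.symm (WithLp.toLp 2 (fun i => Real.sqrt (lam i) * b.repr p i))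
              map_add' := ?_
              map_smul' := ?_ }, ?_⟩
    · intro x y
      rw [← map_add]
      congr 1
      ext i
      simp [mul_add]
    · intro c x
      rw [RingHom.id_apply, ← map_smul]
      congr 1
      ext i
      simp only [map_smul, PiLp.smul_apply, smul_eq_mul]
      ring
    · intro p i
      simp
  have hsq : ∀ p, inner ℝ (A p) p = ‖S p‖ ^ 2 := by
    intro p
    rw [← b.repr.norm_map (S p), EuclideanSpace.norm_sq_eq, ← b.repr.inner_map_map, PiLp.inner_apply]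
    refine Finset.sum_congr rfl fun i _ => ?_
    rw [hS, hAr]
    simp only [RCLike.inner_apply, conj_trivial, Real.norm_eq_abs, sq_abs]
    have := Real.mul_self_sqrt (hpos i).le
    calc b.repr p i * (lam i * b.repr p i) = (Real.sqrt (lam i) * Real.sqrt (lam i)) * (b.repr p i) ^ 2 := by
          rw [this]; ring
      _ = _ := by ring
  have hcomp : (A : En n →ₗ[ℝ] En n) = S ∘ₗ S := by
    ext1 p
    apply b.repr.injective
    ext i
    have := Real.mul_self_sqrt (hpos i).le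
    rw [LinearMap.comp_apply, hS, hS, ← mul_assoc, this]
    exact hAr p i
  refine ⟨S, hsq, ?_, ?_⟩
  · rw [ContinuousLinearMap.det, hcomp, LinearMap.det_comp]
    ring
  · intro h0
    have := LinearMap.bot_lt_ker_of_det_eq_zero h0
    obtain ⟨v, hv, hv0⟩ := (Submodule.ne_bot_iff _).1 this.ne'
    have h1 := hA.2 v hv0
    rw [hsq v, LinearMap.mem_ker.1 hv] at h1
    simp at h1

theorem H79L_det_pos {n : ℕ} (A : En n →L[ℝ] En n) (hA : PosDefOp A) : 0 < A.det := by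
  obtain ⟨S, _, h2, h3⟩ := H79L_sqrt A hA
  rw [h2]
  positivity

theorem H79L_nrm2_cont {n : ℕ} {r0 : ℝ} (𝒢 : NChart n r0) :
    ContinuousOn (nrm2 𝒢) {z : PS n | ‖z.1‖ < r0} := by
  unfold nrm2
  have h1 : ContinuousOn (fun z : PS n => 𝒢.G z.1) {z : PS n | ‖z.1‖ < r0} := by
    refine 𝒢.smooth.continuousOn.comp continuous_fst.continuousOn ?_
    intro z hz
    rw [mem_ball_zero_iff]
    exact hz
  exact (h1.clm_apply continuous_snd.continuousOn).inner continuous_snd.continuousOn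

theorem H79L_open {n : ℕ} {r0 : ℝ} (𝒢 : NChart n r0) (ρ : ℝ) (hρ : ρ < r0) : IsOpen (ZZ 𝒢 ρ) := by
  have ho : IsOpen {z : PS n | ‖z.1‖ < ρ} := isOpen_lt continuous_fst.norm continuous_const
  have h1 : ContinuousOn (nrm2 𝒢) {z : PS n | ‖z.1‖ < ρ} :=
    (H79L_nrm2_cont 𝒢).mono fun z hz => lt_trans hz hρ
  exact h1.isOpen_inter_preimage ho isOpen_Iio

/-- the density -/
def H79L_f {n : ℕ} {r0 : ℝ} (𝒢 : NChart n r0) (x : En n) : ℝ := (Real.sqrt (𝒢.G x).det)⁻¹

theorem H79L_f_nonneg {n : ℕ} {r0 : ℝ} (𝒢 : NChart n r0) (x : En n) : 0 ≤ H79L_f 𝒢 x := by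
  unfold H79L_f
  positivity

theorem H79L_f_pos {n : ℕ} {r0 : ℝ} (𝒢 : NChart n r0) (x : En n) (hx : ‖x‖ < r0) : 0 < H79L_f 𝒢 x := by
  unfold H79L_f
  have := Real.sqrt_pos.2 (H79L_det_pos _ (𝒢.pos x hx))
  positivity

theorem H79L_f_cont {n : ℕ} {r0 : ℝ} (𝒢 : NChart n r0) : ContinuousOn (H79L_f 𝒢) (Metric.ball 0 r0) := by
  unfold H79L_f
  have h1 : ContinuousOn (fun x => (𝒢.G x).det) (Metric.ball 0 r0) :=
    ContinuousLinearMap.continuous_det.comp_continuousOn 𝒢.smooth.continuousOn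
  refine h1.sqrt.inv₀ fun x hx => ?_
  exact (Real.sqrt_pos.2 (H79L_det_pos _ (𝒢.pos x (mem_ball_zero_iff.1 hx)))).ne'

theorem H79L_f_int {n : ℕ} {r0 : ℝ} (𝒢 : NChart n r0) (ρ : ℝ) (hρ : ρ < r0) :
    IntegrableOn (H79L_f 𝒢) (Metric.ball 0 ρ) := by
  have h1 : IntegrableOn (H79L_f 𝒢) (Metric.closedBall 0 ρ) :=
    ((H79L_f_cont 𝒢).mono (Metric.closedBall_subset_ball hρ)).integrableOn_compact
      (isCompact_closedBall 0 ρ)
  exact h1.mono_set Metric.ball_subset_closedBall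

theorem H79L_VV_lint {n : ℕ} {r0 : ℝ} (𝒢 : NChart n r0) (ρ : ℝ) (hρ : ρ < r0) (C : ℝ) (hC : 0 ≤ C) :
    ∫⁻ x in Metric.ball (0 : En n) ρ, ENNReal.ofReal (C * H79L_f 𝒢 x) = ENNReal.ofReal (C * VV 𝒢 ρ) := by
  rw [← ofReal_integral_eq_lintegral_ofReal ((H79L_f_int 𝒢 ρ hρ).const_mul C)
    (Filter.Eventually.of_forall fun x => mul_nonneg hC (H79L_f_nonneg 𝒢 x)), integral_const_mul]
  rfl

theorem H79L_kap {n : ℕ} : ENNReal.ofReal (kap n) = volume (Metric.ball (0 : En n) 1) := by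
  unfold kap
  exact ENNReal.ofReal_toReal measure_ball_lt_top.ne

theorem H79L_kap_nonneg (n : ℕ) : 0 ≤ kap n := ENNReal.toReal_nonneg

theorem H79L_ball {n : ℕ} (hn : 1 ≤ n) (x : En n) {r : ℝ} (hr : 0 ≤ r) :
    volume (Metric.ball x r) = ENNReal.ofReal (r ^ n * kap n) := by
  have : Nonempty (Fin n) := ⟨⟨0, hn⟩⟩
  have : Nontrivial (En n) := by
    refine ⟨0, EuclideanSpace.single ⟨0, hn⟩ 1, ?_⟩
    intro h
    have := congrArg (fun v : En n => v ⟨0, hn⟩) h
    simp at this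
  rw [Measure.addHaar_ball _ _ hr, finrank_euclideanSpace_fin, ENNReal.ofReal_mul (by positivity), H79L_kap]

end Pool.Agent.CRO
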