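import Pool.Agent.helper79.CRO.Lib

open scoped Manifold ContDiff Topology ENNReal
open MeasureTheory Set

noncomputable section

namespace Pool.Agent.CRO

theorem VVP_const {n : ℕ} (hn : 1 ≤ n) (ρ m : ℝ) (hρ : 0 ≤ ρ) :
    ∫ _x in Metric.ball (0 : En n) ρ, m = ρ ^ n * kap n * m := by
  rw [setIntegral_const, Measure.real, H79L_ball hn 0 hρ, ENNReal.toReal_ofReal
    (mul_nonneg (pow_nonneg hρ _) (H79L_kap_nonneg n)), smul_eq_mul]

theorem VVP_kap_pos {n : ℕ} : 0 < kap n := by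
  unfold kap
  exact ENNReal.toReal_pos (Metric.measure_ball_pos volume _ one_pos).ne' measure_ball_lt_top.ne

theorem VVP_lower {n : ℕ} {r0 : ℝ} (𝒢 : NChart n r0) (hn : 1 ≤ n) (ρ m : ℝ) (hρ0 : 0 ≤ ρ) (hρ : ρ < r0)
    (hm : ∀ x ∈ Metric.ball (0 : En n) ρ, m ≤ H79L_f 𝒢 x) : ρ ^ n * kap n * m ≤ VV 𝒢 ρ := by
  rw [← VVP_const hn ρ m hρ0]
  refine setIntegral_mono_on ?_ (H79L_f_int 𝒢 ρ hρ) measurableSet_ball hm
  exact integrableOn_const measure_ball_lt_top.ne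

theorem VVP : VVP_stmt := by
  intro n r0 𝒢 hn hr0
  refine ⟨?_, ?_, ?_⟩
  · intro ρ hρ0 hρ
    obtain ⟨y, hy, hmin⟩ := (isCompact_closedBall (0 : En n) ρ).exists_isMinOn
      ⟨0, Metric.mem_closedBall_self hρ0.le⟩
      ((H79L_f_cont 𝒢).mono (Metric.closedBall_subset_ball hρ))
    have hy' : ‖y‖ < r0 := lt_of_le_of_lt (mem_closedBall_zero_iff.1 hy) hρ
    have h1 := VVP_lower 𝒢 hn ρ (H79L_f 𝒢 y) hρ0.le hρ
      (fun x hx => hmin (Metric.ball_subset_closedBall hx))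
    refine lt_of_lt_of_le ?_ h1
    exact mul_pos (mul_pos (pow_pos hρ0 _) VVP_kap_pos) (H79L_f_pos 𝒢 y hy')
  · intro ρ ρ' h hρ'
    exact setIntegral_mono_set (H79L_f_int 𝒢 ρ' hρ')
      (Filter.Eventually.of_forall fun x => H79L_f_nonneg 𝒢 x)
      (Filter.Eventually.of_forall (Metric.ball_subset_ball h))
  · have h0 : H79L_f 𝒢 0 = 1 := by
      unfold H79L_f
      rw [𝒢.zero, ContinuousLinearMap.det, ContinuousLinearMap.coe_id, LinearMap.det_id, Real.sqrt_one,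
        inv_one]
    have hc : ContinuousAt (H79L_f 𝒢) 0 :=
      (H79L_f_cont 𝒢).continuousAt (Metric.ball_mem_nhds 0 hr0)
    have hev : ∀ᶠ x in 𝓝 (0 : En n), 1 / 2 < H79L_f 𝒢 x := by
      refine hc.eventually_const_lt ?_
      rw [h0]
      norm_num
    obtain ⟨δ, hδ, hball⟩ := Metric.eventually_nhds_iff_ball.1 hev
    refine ⟨min δ (r0 / 2), lt_min hδ (by linarith), lt_of_le_of_lt (min_le_right _ _) (by linarith), ?_⟩
    intro ρ hρ0 hρ
    have hρδ : ρ ≤ δ := hρ.trans (min_le_left _ _)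
    have hρr : ρ < r0 := lt_of_le_of_lt (hρ.trans (min_le_right _ _)) (by linarith)
    have h1 := VVP_lower 𝒢 hn ρ (1 / 2) hρ0.le hρr
      (fun x hx => (hball x (Metric.ball_subset_ball hρδ hx)).le)
    linarith

end Pool.Agent.CRO
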