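import Pool.Agent.helper79.CRO.Lib

open scoped Manifold ContDiff Topology ENNReal
open MeasureTheory Set

noncomputable section

namespace Pool.Agent.CRO

theorem BAD_key {n : ℕ} (G : En n →L[ℝ] En n) (hG : PosDefOp G) (x p : En n) (c : ℝ) (hx : x ≠ 0)
    (hgx : G x = x) (hc0 : 0 ≤ c) (hp : inner ℝ (G p) p < 1) (hcx : c * ‖x‖ ≤ inner ℝ x p) :
    inner ℝ (G (p - (c / ‖x‖) • x)) (p - (c / ‖x‖) • x) < 1 - c ^ 2 := by
  have hx' : 0 < ‖x‖ := norm_pos_iff.2 hx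
  have e1 : inner ℝ (G p) x = inner ℝ x p := by
    rw [hG.1, hgx, real_inner_comm]
  rw [map_sub, map_smul, hgx, inner_sub_left, inner_sub_right, inner_sub_right, real_inner_smul_left,
    real_inner_smul_right, real_inner_smul_left, real_inner_smul_right, e1, real_inner_self_eq_norm_sq]
  have e2 : c / ‖x‖ * (c / ‖x‖ * ‖x‖ ^ 2) = c ^ 2 := by
    field_simp
  have e3 : c ≤ inner ℝ x p / ‖x‖ := (le_div_iff₀ hx').2 hcx
  have e4 : c / ‖x‖ * inner ℝ x p = c * (inner ℝ x p / ‖x‖) := by ring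
  rw [e2, e4]
  nlinarith

theorem BAD_closed {n : ℕ} (c : ℝ) : IsClosed {z : PS n | c * ‖z.1‖ ≤ inner ℝ z.1 z.2} := by
  have h1 : Continuous fun z : PS n => c * ‖z.1‖ := continuous_const.mul continuous_fst.norm
  have h2 : Continuous fun z : PS n => (inner ℝ z.1 z.2 : ℝ) := continuous_fst.inner continuous_snd
  exact isClosed_le h1 h2

theorem BAD_meas {n : ℕ} {r0 : ℝ} (𝒢 : NChart n r0) (ρ c : ℝ) (hρ : ρ < r0) :
    MeasurableSet {z : PS n | z ∈ ZZ 𝒢 ρ ∧ c * ‖z.1‖ ≤ inner ℝ z.1 z.2} := by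
  have h1 : MeasurableSet (ZZ 𝒢 ρ) := (H79L_open 𝒢 ρ hρ).measurableSet
  have h2 : MeasurableSet {z : PS n | c * ‖z.1‖ ≤ inner ℝ z.1 z.2} := (BAD_closed c).measurableSet
  exact h1.inter h2

theorem BAD_slice {n : ℕ} {r0 : ℝ} (𝒢 : NChart n r0) (h1 : ELL_stmt) (ρ c : ℝ) (hn : 1 ≤ n) (hρ : ρ < r0)
    (hc0 : 0 ≤ c) (hc1 : c ≤ 1) (x : En n) (hx0 : x ≠ 0) :
    volume (Prod.mk x ⁻¹' {z : PS n | z ∈ ZZ 𝒢 ρ ∧ c * ‖z.1‖ ≤ inner ℝ z.1 z.2}) ≤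
      (Metric.ball (0 : En n) ρ).indicator
        (fun x => ENNReal.ofReal (Real.sqrt (1 - c ^ 2) ^ n * kap n * H79L_f 𝒢 x)) x := by
  have hs0 : 0 ≤ Real.sqrt (1 - c ^ 2) := Real.sqrt_nonneg _
  by_cases hx : x ∈ Metric.ball (0 : En n) ρ
  · rw [indicator_of_mem hx]
    have hx' : ‖x‖ < ρ := mem_ball_zero_iff.1 hx
    have hG := 𝒢.pos x (hx'.trans hρ)
    have h2 := h1 n (𝒢.G x) ((c / ‖x‖) • x) (Real.sqrt (1 - c ^ 2)) hG hs0 hn
    have h3 : Real.sqrt (1 - c ^ 2) ^ n * kap n * H79L_f 𝒢 x =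
        Real.sqrt (1 - c ^ 2) ^ n * kap n / Real.sqrt (𝒢.G x).det := by
      unfold H79L_f
      ring
    rw [h3, ← h2]
    refine measure_mono ?_
    intro p hp
    obtain ⟨⟨_, hp1⟩, hp2⟩ := hp
    have hc2 : 0 ≤ 1 - c ^ 2 := by nlinarith
    simp only [mem_ofPred_eq, Real.sq_sqrt hc2]
    exact BAD_key (𝒢.G x) hG x p c hx0 (𝒢.gauss x (hx'.trans hρ)) hc0 hp1 hp2
  · rw [indicator_of_notMem hx]
    have hset : Prod.mk x ⁻¹' {z : PS n | z ∈ ZZ 𝒢 ρ ∧ c * ‖z.1‖ ≤ inner ℝ z.1 z.2} = ∅ := by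
      ext p
      simp only [mem_preimage, ZZ, mem_ofPred_eq, mem_empty_iff_false, iff_false]
      intro h
      exact absurd (mem_ball_zero_iff.2 h.1.1) hx
    rw [hset, measure_empty]

theorem BAD_nt {n : ℕ} (hn : 1 ≤ n) : Nontrivial (En n) := by
  refine ⟨0, EuclideanSpace.single ⟨0, hn⟩ 1, ?_⟩
  intro h
  have := congrArg (fun v : En n => v ⟨0, hn⟩) h
  simp at this

theorem BAD (h1 : ELL_stmt) : BAD_stmt := by
  intro n r0 𝒢 ρ c hn hρ hc0 hc1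
  have hm := BAD_meas 𝒢 ρ c hρ
  refine ⟨hm, ?_⟩
  have hs0 : 0 ≤ Real.sqrt (1 - c ^ 2) := Real.sqrt_nonneg _
  have hk : 0 ≤ Real.sqrt (1 - c ^ 2) ^ n * kap n := mul_nonneg (pow_nonneg hs0 _) (H79L_kap_nonneg n)
  rw [Measure.volume_eq_prod, Measure.prod_apply hm, ← mul_assoc, ← H79L_VV_lint 𝒢 ρ hρ _ hk,
    ← lintegral_indicator measurableSet_ball]
  have hnt : Nontrivial (En n) := BAD_nt hn
  have hae : ∀ᵐ x : En n, x ≠ 0 := by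
    rw [ae_iff]
    simp
  refine lintegral_mono_ae ?_
  filter_upwards [hae] with x hx0
  exact BAD_slice 𝒢 h1 ρ c hn hρ hc0 hc1 x hx0

end Pool.Agent.CRO
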