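import Pool.Agent.helper79.CRO.Lib

open scoped Manifold ContDiff Topology ENNReal
open MeasureTheory Set

noncomputable section

namespace Pool.Agent.CRO

theorem ELL : ELL_stmt := by
  intro n A q r hA hr hn
  obtain ⟨S, h1, h2, h3⟩ := H79L_sqrt A hA
  have hset : {p : En n | inner ℝ (A (p - q)) (p - q) < r ^ 2} =
      (fun p => p + -q) ⁻¹' (S ⁻¹' Metric.ball 0 r) := by
    ext p
    simp only [mem_ofPred_eq, mem_preimage, mem_ball_zero_iff]
    rw [h1, sq_lt_sq₀ (norm_nonneg _) hr, sub_eq_add_neg]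
  rw [hset, measure_preimage_add_right, Measure.addHaar_preimage_linearMap _ h3, H79L_ball hn 0 hr,
    ← ENNReal.ofReal_mul (abs_nonneg _), h2, Real.sqrt_sq_eq_abs, abs_inv]
  congr 1
  ring

end Pool.Agent.CRO
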