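import Pool.Agent.helper58.CRO.SpecB

namespace Pool.Agent.CRO

theorem GFL (h1 : CUT_stmt) (h2 : HFL_stmt) : GFL_stmt := by
  intro n r0 r1 G hr1 hr
  obtain ⟨H, hH1, hH2, hH3⟩ := h1 n r0 r1 G hr1 hr
  obtain ⟨Φ, hΦ⟩ := h2 n H hH1 hH2
  exact ⟨H, Φ, ⟨hΦ, hr1, hr, hH1, hH2, hH3⟩⟩

end Pool.Agent.CRO
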