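import Pool.Agent.helper79.CRO.Lib

open scoped Manifold ContDiff Topology ENNReal
open MeasureTheory Set

noncomputable section

namespace Pool.Agent.CRO

theorem VOL (h1 : ELL_stmt) : VOL_stmt := by
  intro n r0 𝒢 ρ hn hρ
  have hm : MeasurableSet (ZZ 𝒢 ρ) := (H79L_open 𝒢 ρ hρ).measurableSet
  refine ⟨hm, ?_⟩
  rw [Measure.volume_eq_prod, Measure.prod_apply hm, ← H79L_VV_lint 𝒢 ρ hρ (kap n) (H79L_kap_nonneg n),
    ← lintegral_indicator measurableSet_ball]
  refine lintegral_congr fun x => ?_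
  by_cases hx : x ∈ Metric.ball (0 : En n) ρ
  · rw [indicator_of_mem hx]
    have hx' : ‖x‖ < ρ := mem_ball_zero_iff.1 hx
    have hset : Prod.mk x ⁻¹' ZZ 𝒢 ρ = {p : En n | inner ℝ (𝒢.G x (p - 0)) (p - 0) < 1 ^ 2} := by
      ext p
      simp only [mem_preimage, ZZ, mem_ofPred_eq, nrm2, sub_zero, one_pow]
      exact ⟨fun h => h.2, fun h => ⟨hx', h⟩⟩
    rw [hset, h1 n (𝒢.G x) 0 1 (𝒢.pos x (hx'.trans hρ)) zero_le_one hn, one_pow, one_mul]
    rfl
  · rw [indicator_of_notMem hx]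
    have hset : Prod.mk x ⁻¹' ZZ 𝒢 ρ = ∅ := by
      ext p
      simp only [mem_preimage, ZZ, mem_ofPred_eq, mem_empty_iff_false, iff_false, not_and]
      intro h
      exact absurd (mem_ball_zero_iff.2 h) hx
    rw [hset, measure_empty]

end Pool.Agent.CRO
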